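import Pool.Agent.V7H14.PF.Main

/-!
# MP_89a3f8_ag: the termination of flips for pairs which are not pseudo-effective implies the termination of all flips

The question is about the `ℚ`-factorial klt pairs `(X, Δ)` over `S` such that `K + Δ` is not pseudo-effective over `S`.
This condition cannot make the question easier:

1. If the assertion of the question holds in dimension `n + 1`, then all sequences of flips of all `ℚ`-factorial klt
   pairs of dimension `n` are finite (also if `K + Δ` is pseudo-effective).
2. The assertion of the question (in all dimensions) is equivalent to the conjecture on the termination of flips for all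
   `ℚ`-factorial klt pairs.
3. It is even equivalent to the assertion of the question for the varieties `Y` which are nearly rationally connected:
   those for which the base of the maximal rationally connected fibration has dimension at most `φ(dim Y)`, where `φ` is
   any given unbounded function.

Proof. `(X × P^m, Δ × P^m)` is never pseudo-effective over `S`, and each sequence of flips for `(X, Δ)` gives a sequence
of flips for it.
-/

set_option autoImplicit false

namespace Pool.Agent.Results.MP_89a3f8_ag.FullTerminationH14

open Pool.Agent.V7H14.PF

/-- **The question is equivalent to the termination of all flips.** -/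
theorem result (F : Flips) (hF : IsFlips F) :
    (∀ n, (∀ Y, F.dim Y = n + 1 → NonPseudoEffectiveTerminate F Y) → ∀ X, F.dim X = n → AllTerminate F X) ∧
    ((∀ Y, NonPseudoEffectiveTerminate F Y) ↔ ∀ X, AllTerminate F X) ∧
    ∀ φ : ℕ → ℕ, (∀ B, ∃ n, B ≤ φ n) →
      ((∀ Y, F.mrc Y ≤ φ (F.dim Y) → NonPseudoEffectiveTerminate F Y) ↔ ∀ X, AllTerminate F X) := by
  refine ⟨dimension_shift hF, ⟨fun h X => dimension_shift hF _ (fun Y _ => h Y) X rfl,
    fun h Y α hα _ => h Y α hα⟩, fun φ hφ => ⟨small_base hF φ hφ, fun h Y _ α hα _ => h Y α hα⟩⟩

end Pool.Agent.Results.MP_89a3f8_ag.FullTerminationH14
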