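import Pool.Agent.V7H14.PF.Main

/-!
# MP_89a3f8_ag: flips of products

Let `X / S` and `Y / T` be `ℚ`-factorial klt varieties, and let `Δ` be any boundary on `X × Y` such that `(X × Y, Δ)`
is klt; `Δ` need not come from the factors, and `X` and `Y` can be irregular (the numerical classes on `X × Y` need not
come from the factors). Let `α` be the class of `K + Δ`, and let `α_X` and `α_Y` be its restrictions to the general
subvarieties `X × {y}` and `{x} × Y`; they are the classes of `K_X + Δ_y` and of `K_Y + Δ_x` for klt pairs `(X, Δ_y)` and
`(Y, Δ_x)`.

1. The sequences of flips over `S × T` which start from `(X × Y, Δ)` are exactly the shuffles of the sequences of flips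
   for `(X, Δ_y)` over `S` and for `(Y, Δ_x)` over `T`: all the varieties in the sequence are products, and in each step
   one factor is flipped.
2. So the possible numbers of flips for `(X × Y, Δ)` are the sums of those for `(X, Δ_y)` and `(Y, Δ_x)`.
3. All sequences for `(X × Y, Δ)` are finite if and only if this holds for `(X, Δ_y)` and `(Y, Δ_x)`.
4. The class of the varieties `X` such that all sequences of flips are finite, for all klt pairs `(X, Δ)`, is closed under
   products and under factors of products.
5. If it contains the varieties of dimension at most `d` (known for `d = 3`: Shokurov, Kawamata), then it contains all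
   products of varieties of dimension at most `d` and of varieties with finitely many small `ℚ`-factorial
   modifications, for instance Mori dream spaces (`Built`).

The pairs in 5 have arbitrarily large dimensions, and `K + Δ` can be not pseudo-effective (for instance if one of the
factors is uniruled and `Δ` is small); so 5 answers the question for these pairs.

Proof. The cone theorem: the extremal rays on which `K + Δ` is negative are spanned by rational curves `C`; a rational
curve in `X × Y` has the class of `pr₁ C × {y} + {x} × pr₂ C`. As the ray is extremal, it comes from one of the factors,
and by the uniqueness of flips the flip is a product.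
-/

set_option autoImplicit false

namespace Pool.Agent.Results.MP_89a3f8_ag.ProductsTerminateH14

open Pool.Agent.V7H14.PF

/-- **Flips of products.** -/
theorem result (F : Flips) (hF : IsFlips F) :
    (∀ (X Y : F.Var) (α : F.N (F.prod X Y)), α ∈ F.Klt (F.self (F.prod X Y)) →
      -- sequences of flips on the product are shuffles
      (∀ L w, IsSequence F α L w ↔ ∃ x y, IsShuffle F α L w x y) ∧
      -- the numbers of flips
      (∀ L, (∃ w, IsSequence F α L w) ↔ ∃ p q, p + q = L ∧ (∃ x, IsSequence F (F.resL X Y α) p x) ∧
        ∃ y, IsSequence F (F.resR X Y α) q y) ∧
      -- termination
      (Terminates F (F.prod X Y) α ↔ Terminates F X (F.resL X Y α) ∧ Terminates F Y (F.resR X Y α))) ∧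
    -- products of varieties on which all sequences of flips are finite
    (∀ X Y : F.Var, AllTerminate F (F.prod X Y) ↔ AllTerminate F X ∧ AllTerminate F Y) ∧
    -- varieties built by products
    ∀ d, (∀ X, F.dim X ≤ d → AllTerminate F X) → ∀ X, Built F d X → AllTerminate F X :=
  ⟨fun _ _ _ hα => ⟨fun L w => shuffle hF hα L w, fun L => lengths hF hα L, terminates_prod hF hα⟩,
    all_prod hF, fun d => all_built hF d⟩

end Pool.Agent.Results.MP_89a3f8_ag.ProductsTerminateH14
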