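import Mathlib
import Pool.Agent.V7H36.NR.Betti

/-!
# Flips decrease the stringy E-function: no sequence of flips of klt pairs returns to an isomorphic
pair, and sequences of flips terminate in bounded families, for finitely many small modifications up to
isomorphism, and between Gorenstein varieties with stringy Betti numbers

Let `X 0 ⇢ X 1 ⇢ ⋯` be a sequence of `(K + Δ)`-flips over `S` of `ℚ`-factorial klt pairs
`(X i, Δ i)` over the field of complex numbers, of any dimension, with real boundaries. Nothing is
assumed about `K + Δ`; in particular `K + Δ` can be not pseudo-effective over `S`.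

1. Two pairs `(X i, Δ i)` and `(X j, Δ j)`, `i < j`, are never isomorphic (not even over the field of
   complex numbers instead of `S`).
2. If the pairs `(X i, Δ i)` belong to a bounded family, then the sequence is finite.
3. Let `b 1, ..., b r` be divisors on a variety `X`, and suppose that there are at most `n`
   isomorphism classes of the small modifications `X'` of `X`, together with the strict transforms of
   the `b k`. Then each sequence of flips that starts from `(X, Δ)`, `Δ = ∑ c k * b k`, has less than `n`
   steps, for all real numbers `c k` such that `(X, Δ)` is klt. For instance let `(X, b)` be a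
   projective klt Calabi-Yau pair (`K_X + b ≡ 0`, `b ≠ 0`) which satisfies the movable cone conjecture
   of Kawamata, Morrison and Totaro. The pairs `(X, c b)`, `0 ≤ c < 1`, are not pseudo-effective, and
   all sequences of flips which start from them are finite, with less steps than there are orbits of
   the pseudo-automorphisms of `(X, b)` on the set of the small modifications (the chambers of the
   movable cone).
4. Each sequence of `K`-flips (`Δ i = 0`) is finite if all the `X i` are Gorenstein with stringy
   Betti numbers that are not negative in even degrees, for instance if each `X i` is projective and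
   smooth, or projective with a crepant resolution or with Gorenstein quotient singularities.

In the problem it is known that the minimal model program with scaling of an ample divisor terminates
if `K + Δ` is not pseudo-effective (Birkar, Cascini, Hacon, McKernan); here all sequences of flips are
considered.

The proof. On a common log resolution the discrepancies do not decrease in a flip, and one of them
increases. So Batyrev's formula shows that the value `E_st(X i, Δ i; t, t)` of the stringy
`E`-function decreases for all large real numbers `t`. In the fourth part the difference of the two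
values is a polynomial in `t` whose leading term has an even degree and a positive coefficient; this
cannot happen infinitely many times, because the coefficients of even degree are integers which are
not negative, and a coefficient of odd degree changes only if one of higher degree changes.

`Birational` collects the varieties, divisors, isomorphisms, small birational maps and stringy
functions, and `IsBirational` their known properties.
-/

set_option autoImplicit false

namespace Pool.Agent.Results.MP_89a3f8_ag.StringyFunctionsH36

open Pool.Agent.V7H36.NR

/-- There are at most `n` isomorphism classes of the small modifications of `X` with the strict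
transforms of the divisors `b k`: of any `n + 1` small modifications two are isomorphic. -/
def AtMostClasses (B : Birational) (X : B.V) {r : ℕ} (b : Fin r → B.D X) (n : ℕ) : Prop :=
  ∀ (Y : Fin (n + 1) → B.V) (g : ∀ m, B.Small X (Y m)), ∃ i j, i < j ∧
    ∃ φ : B.Iso (Y i) (Y j), ∀ k, B.push φ (B.strict (g i) (b k)) = B.strict (g j) (b k)

/-- **Flips decrease the stringy `E`-function; no return, and termination.** -/
theorem result (B : Birational) (hB : IsBirational B) :
    -- the stringy function decreases, and no two pairs are isomorphic
    (∀ (L : ℕ) (X : ℕ → B.V) (Δ : ∀ i, B.D (X i)) (f : ∀ i, B.Small (X i) (X (i + 1))),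
      IsSequence B L X Δ f → ∀ i j, i < j → j ≤ L →
        (∃ t₀ : ℝ, ∀ t, t₀ < t → B.E (X j) (Δ j) t < B.E (X i) (Δ i) t) ∧
        ∀ φ : B.Iso (X i) (X j), B.push φ (Δ i) ≠ Δ j) ∧
    -- bounded families
    (∀ F : Set (Σ X, B.D X), B.Bounded F → ∀ (X : ℕ → B.V) (Δ : ∀ i, B.D (X i))
      (f : ∀ i, B.Small (X i) (X (i + 1))), (∀ i, ⟨X i, Δ i⟩ ∈ F) →
        ¬ ∀ L, IsSequence B L X Δ f) ∧
    -- finitely many small modifications up to isomorphism
    (∀ (X₀ : B.V) (r : ℕ) (b : Fin r → B.D X₀) (n : ℕ), AtMostClasses B X₀ b n →
      ∀ (c : Fin r → ℝ) (L : ℕ) (X : ℕ → B.V) (Δ : ∀ i, B.D (X i))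
        (f : ∀ i, B.Small (X i) (X (i + 1))) (g : B.Small X₀ (X 0)),
        Δ 0 = ∑ k, c k • B.strict g (b k) → IsSequence B L X Δ f → L < n) ∧
    -- Gorenstein varieties with stringy Betti numbers
    (∀ (X : ℕ → B.V) (f : ∀ i, B.Small (X i) (X (i + 1))), (∀ i, HasStringyBettiNumbers B (X i)) →
      ¬ ∀ L, IsSequence B L X (fun _ => 0) f) := by
  refine ⟨fun L X Δ f h i j hij hj => ⟨?_, h.not_iso hB hij hj⟩, fun F hF X Δ f hX h =>
    no_infinite hB F hF h hX, ?_, fun X f hX h => betti_terminates hB h hX⟩
  · obtain ⟨t₀, ht⟩ := Filter.eventually_atTop.1 (h.lt hB hij hj)
    exact ⟨t₀, fun t h1 => ht t h1.le⟩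
  · intro X₀ r b n hn c L X Δ f g h0 h
    by_contra hL
    push Not at hL
    obtain ⟨i, j, hij, φ, hφ⟩ := hn (fun m => X m) fun m => B.comp g (total X f m)
    have hi : (i : ℕ) ≤ L := (Nat.lt_succ_iff.1 i.2).trans hL
    have hj : (j : ℕ) ≤ L := (Nat.lt_succ_iff.1 j.2).trans hL
    have key : ∀ m ≤ L, Δ m = ∑ k, c k • B.strict (B.comp g (total X f m)) (b k) := by
      intro m hm
      rw [h.total_eq hB m hm, h0, strict_sum hB]
      exact Finset.sum_congr rfl fun k _ => by rw [hB.strict_comp]
    refine h.not_iso hB (Fin.lt_def.1 hij) hj φ ?_
    rw [key i hi, key j hj, push_sum hB]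
    exact Finset.sum_congr rfl fun k _ => by rw [hφ]

end Pool.Agent.Results.MP_89a3f8_ag.StringyFunctionsH36
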